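import Mathlib

/-!
# `k`-power domination: definitions
-/

set_option autoImplicit false

namespace Pool.Agent.Q107.ClawPD

variable {V : Type*}

/-- the closed neighbourhood `N[S]` -/
def closedNbhd (G : SimpleGraph V) (S : Set V) : Set V := {v | v ∈ S ∨ ∃ s ∈ S, G.Adj s v}

/-- `Stage G k S M`: the set `M` is reached when one starts with `N[S]` and applies the propagation
rule (if some vertex `v` of the present set has at most `k` neighbours outside of it, all neighbours
of `v` are added) finitely many times. -/
inductive Stage (G : SimpleGraph V) (k : ℕ) (S : Set V) : Set V → Prop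
  | init : Stage G k S (closedNbhd G S)
  | step (M : Set V) (v : V) : Stage G k S M → v ∈ M → (G.neighborSet v \ M).ncard ≤ k →
      Stage G k S (M ∪ G.neighborSet v)

/-- `S` is a `k`-power dominating set: all vertices get monitored -/
def PowerDominating (G : SimpleGraph V) (k : ℕ) (S : Set V) : Prop := Stage G k S Set.univ

/-- the `k`-power domination number -/
noncomputable def powerNumber (G : SimpleGraph V) (k : ℕ) : ℕ :=
  sInf {m | ∃ S : Set V, S.ncard = m ∧ PowerDominating G k S}

/-- no induced `K_{1,3}` -/
def ClawFree (G : SimpleGraph V) : Prop :=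
  ∀ v a b c : V, G.Adj v a → G.Adj v b → G.Adj v c → a ≠ b → a ≠ c → b ≠ c →
    G.Adj a b ∨ G.Adj a c ∨ G.Adj b c

/-- `M` is closed under the propagation rule -/
def Closed (G : SimpleGraph V) (k : ℕ) (M : Set V) : Prop :=
  ∀ v ∈ M, (G.neighborSet v \ M).ncard ≤ k → G.neighborSet v ⊆ M

lemma stage_nbhd {G : SimpleGraph V} {k : ℕ} {S M : Set V} (h : Stage G k S M) :
    closedNbhd G S ⊆ M := by
  induction h with
  | init => exact subset_rfl
  | step M v _ _ _ ih => exact ih.trans Set.subset_union_left

/-- in a finite graph, `S` is power dominating if the only closed set containing `N[S]` is `V` -/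
lemma powerDominating_of_closed [Finite V] {G : SimpleGraph V} {k : ℕ} {S : Set V}
    (h : ∀ M : Set V, closedNbhd G S ⊆ M → Closed G k M → M = Set.univ) :
    PowerDominating G k S := by
  obtain ⟨M, hM, hmax⟩ := (Set.toFinite {M : Set V | Stage G k S M}).exists_maximal
    ⟨_, Stage.init⟩
  have hcl : Closed G k M := by
    intro v hv hk
    have h1 : Stage G k S (M ∪ G.neighborSet v) := Stage.step M v hM hv hk
    have h2 := hmax h1 Set.subset_union_left
    exact Set.subset_union_right.trans h2
  have := h M (stage_nbhd hM) hcl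
  rw [this] at hM
  exact hM

/-- a fort: every vertex outside `F` with a neighbour in `F` has more than `k` of them -/
lemma fort_hit [Finite V] {G : SimpleGraph V} {k : ℕ} {S F : Set V} (hne : F.Nonempty)
    (hF : ∀ v, v ∉ F → (G.neighborSet v ∩ F).Nonempty → k < (G.neighborSet v ∩ F).ncard)
    (hS : PowerDominating G k S) : ∃ s ∈ S, s ∈ F ∨ ∃ f ∈ F, G.Adj s f := by
  by_contra hcon
  push Not at hcon
  have key : ∀ M, Stage G k S M → Disjoint M F := by
    intro M hM
    induction hM with
    | init =>
      rw [Set.disjoint_left]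
      rintro v (hv | ⟨s, hs, hsv⟩) hvF
      · exact (hcon v hv).1 hvF
      · exact (hcon s hs).2 v hvF hsv
    | step M v _ hv hk ih =>
      rw [Set.disjoint_union_left]
      refine ⟨ih, ?_⟩
      by_contra hnd
      rw [Set.not_disjoint_iff_nonempty_inter] at hnd
      have hvF : v ∉ F := Set.disjoint_left.1 ih hv
      have h1 := hF v hvF hnd
      have h2 : (G.neighborSet v ∩ F) ⊆ (G.neighborSet v \ M) := by
        rintro x ⟨hx1, hx2⟩
        exact ⟨hx1, fun hxM => Set.disjoint_left.1 ih hxM hx2⟩
      have h3 := Set.ncard_le_ncard h2 (Set.toFinite _)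
      omega
  have h1 := key _ hS
  obtain ⟨f, hf⟩ := hne
  exact Set.disjoint_left.1 h1 (Set.mem_univ f) hf

end Pool.Agent.Q107.ClawPD
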