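import Pool.Agent.Q107.ClawPD.Defs

/-!
# The lower bound: a claw-free `r`-regular graph with `n < 2 (r + 1)` and `γ_{P,k} ≥ 2`, `k < r / 2`

Let `h = r / 2 ≥ 2` and `t = r - 2 h + 1 ∈ {1, 2}`. The graph has two disjoint cliques
`A = A₁ ∪ A₂`, `B = B₁ ∪ B₂` with `|A₁| = |A₂| = |B₁| = |B₂| = h` and a third clique `Z` with `t`
vertices; all vertices of `Z` are joined to all vertices of `A₁ ∪ B₁`, and between `A₂` and `B₂`
there is a `t`-regular bipartite graph. The sets `A₁`, `B₁`, `A₂ ∪ B₂` are forts.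
-/

set_option autoImplicit false

namespace Pool.Agent.Q107.ClawPD

/-- `Sum.inl a`: the vertices of `Z`; `Sum.inr (s, l, i)`: side `s` (`A` or `B`), `l = false` for
`A₁`, `B₁` and `l = true` for `A₂`, `B₂` -/
abbrev LV (m t : ℕ) := Fin t ⊕ (Bool × Bool × Fin (m + 2))

/-- the adjacency -/
def ladj (m t : ℕ) : LV m t → LV m t → Prop
  | Sum.inl a, Sum.inl b => a ≠ b
  | Sum.inl _, Sum.inr (_, l, _) => l = false
  | Sum.inr (_, l, _), Sum.inl _ => l = false
  | Sum.inr (s, l, i), Sum.inr (s', l', j) => (s = s' ∧ ¬ (l = l' ∧ i = j)) ∨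
      (s = false ∧ s' = true ∧ l = true ∧ l' = true ∧ ((j - i : Fin (m + 2)) : ℕ) < t) ∨
      (s = true ∧ s' = false ∧ l = true ∧ l' = true ∧ ((i - j : Fin (m + 2)) : ℕ) < t)

instance (m t : ℕ) (x y : LV m t) : Decidable (ladj m t x y) := by
  rcases x with a | ⟨s, l, i⟩ <;> rcases y with b | ⟨s', l', j⟩ <;> unfold ladj <;> infer_instance

/-- the graph -/
def LG (m t : ℕ) : SimpleGraph (LV m t) where
  Adj := ladj m t
  symm := ⟨by
    rintro (a | ⟨s, l, i⟩) (b | ⟨s', l', j⟩) h
    · exact fun e => h e.symm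
    · exact h
    · exact h
    · rcases h with ⟨h1, h2⟩ | ⟨h1, h2, h3, h4, h5⟩ | ⟨h1, h2, h3, h4, h5⟩
      · exact Or.inl ⟨h1.symm, fun e => h2 ⟨e.1.symm, e.2.symm⟩⟩
      · exact Or.inr (Or.inr ⟨h2, h1, h4, h3, h5⟩)
      · exact Or.inr (Or.inl ⟨h2, h1, h4, h3, h5⟩)⟩
  loopless := ⟨by
    rintro (a | ⟨s, l, i⟩) h
    · exact h rfl
    · rcases h with ⟨h1, h2⟩ | ⟨h1, h2, h3, h4, h5⟩ | ⟨h1, h2, h3, h4, h5⟩
      · exact h2 ⟨rfl, rfl⟩
      · rw [h1] at h2; exact absurd h2 (by decide)
      · rw [h1] at h2; exact absurd h2 (by decide)⟩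

instance (m t : ℕ) : DecidableRel (LG m t).Adj := fun x y =>
  inferInstanceAs (Decidable (ladj m t x y))

lemma sum_ne (n : ℕ) (b : Fin n) : (∑ a : Fin n, if b ≠ a then 1 else 0) + 1 = n := by
  have h : (∑ a : Fin n, if b ≠ a then 1 else 0) = (Finset.univ.erase b).card := by
    rw [Finset.card_eq_sum_ones, ← Finset.filter_ne, Finset.sum_filter]
  rw [h, Finset.card_erase_of_mem (Finset.mem_univ b), Finset.card_univ, Fintype.card_fin]
  have := b.pos
  omega

lemma sum_lt (n t : ℕ) (ht : t ≤ n) : (∑ a : Fin n, if (a : ℕ) < t then 1 else 0) = t := by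
  rw [Fin.sum_univ_eq_sum_range (fun a => if a < t then 1 else 0) n, ← Finset.card_filter]
  have : (Finset.range n).filter (fun a => a < t) = Finset.range t := by
    ext a
    simp only [Finset.mem_filter, Finset.mem_range]
    omega
  rw [this, Finset.card_range]

lemma sum_near (m t : ℕ) (ht : t ≤ m + 2) (i : Fin (m + 2)) :
    (∑ j : Fin (m + 2), if ((j - i : Fin (m + 2)) : ℕ) < t then 1 else 0) = t := by
  exact (Fintype.sum_equiv (Equiv.subRight i) _
    (fun a : Fin (m + 2) => if (a : ℕ) < t then 1 else 0) fun j => rfl).trans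
    (sum_lt (m + 2) t ht)

lemma sum_near' (m t : ℕ) (ht : t ≤ m + 2) (i : Fin (m + 2)) :
    (∑ j : Fin (m + 2), if ((i - j : Fin (m + 2)) : ℕ) < t then 1 else 0) = t := by
  exact (Fintype.sum_equiv (Equiv.subLeft i) _
    (fun a : Fin (m + 2) => if (a : ℕ) < t then 1 else 0) fun j => rfl).trans
    (sum_lt (m + 2) t ht)

lemma regular (m t : ℕ) (ht1 : 1 ≤ t) (ht : t ≤ m + 2) (v : LV m t) :
    ((LG m t).neighborSet v).ncard = 2 * (m + 2) + t - 1 := by
  have h1 : ((LG m t).neighborSet v).ncard =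
      ∑ w : LV m t, if ladj m t v w then 1 else 0 := by
    rw [← Finset.card_filter, ← Set.ncard_coe_finset]
    congr 1
    ext w
    simp [LG]
  rw [h1, Fintype.sum_sum_type, Fintype.sum_prod_type]
  simp only [Fintype.sum_prod_type, Fintype.sum_bool]
  rcases v with b | ⟨s, l, i⟩
  · have := sum_ne t b
    simp [ladj] at this ⊢
    omega
  · have h2 := sum_ne (m + 2) i
    have h3 := sum_near m t ht i
    have h4 := sum_near' m t ht i
    rcases s <;> rcases l <;> simp [ladj] at h2 h3 h4 ⊢ <;> omega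

lemma adj_inl (m t : ℕ) (a b : Fin t) : (LG m t).Adj (Sum.inl a) (Sum.inl b) ↔ a ≠ b := Iff.rfl

lemma adj_inl_inr (m t : ℕ) (a : Fin t) (s l : Bool) (i : Fin (m + 2)) :
    (LG m t).Adj (Sum.inl a) (Sum.inr (s, l, i)) ↔ l = false := Iff.rfl

lemma adj_inr_inl (m t : ℕ) (a : Fin t) (s l : Bool) (i : Fin (m + 2)) :
    (LG m t).Adj (Sum.inr (s, l, i)) (Sum.inl a) ↔ l = false := Iff.rfl

lemma adj_same (m t : ℕ) (s l l' : Bool) (i j : Fin (m + 2)) :
    (LG m t).Adj (Sum.inr (s, l, i)) (Sum.inr (s, l', j)) ↔ ¬ (l = l' ∧ i = j) := by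
  constructor
  · rintro (⟨h1, h2⟩ | ⟨h1, h2, h3, h4, h5⟩ | ⟨h1, h2, h3, h4, h5⟩)
    · exact h2
    · rw [h1] at h2; exact absurd h2 (by decide)
    · rw [h1] at h2; exact absurd h2 (by decide)
  · exact fun h => Or.inl ⟨rfl, h⟩

lemma adj_diff (m t : ℕ) (s s' l l' : Bool) (i j : Fin (m + 2)) (hs : s ≠ s')
    (h : (LG m t).Adj (Sum.inr (s, l, i)) (Sum.inr (s', l', j))) : l = true ∧ l' = true := by
  rcases h with ⟨h1, h2⟩ | ⟨h1, h2, h3, h4, h5⟩ | ⟨h1, h2, h3, h4, h5⟩
  · exact absurd h1 hs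
  · exact ⟨h3, h4⟩
  · exact ⟨h3, h4⟩

lemma clawFree (m t : ℕ) : ClawFree (LG m t) := by
  -- the neighbourhood of every vertex is covered by two cliques
  have key : ∀ v : LV m t, ∃ f : LV m t → Bool, ∀ a b, (LG m t).Adj v a → (LG m t).Adj v b →
      a ≠ b → f a = f b → (LG m t).Adj a b := by
    rintro (z | ⟨s, l, i⟩)
    · refine ⟨fun x => match x with
        | Sum.inl _ => true
        | Sum.inr (s, _, _) => s, ?_⟩
      rintro (a | ⟨sa, la, ia⟩) (b | ⟨sb, lb, ib⟩) ha hb hab hf
      · exact fun h => hab (by rw [h])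
      · exact hb
      · exact ha
      · have e1 : la = false := ha
        have e2 : lb = false := hb
        have e3 : sa = sb := hf
        subst e1 e2 e3
        rw [adj_same]
        rintro ⟨_, rfl⟩
        exact hab rfl
    · refine ⟨fun x => match x with
        | Sum.inl _ => !s
        | Sum.inr (s', _, _) => s', ?_⟩
      rintro (a | ⟨sa, la, ia⟩) (b | ⟨sb, lb, ib⟩) ha hb hab hf
      · exact fun h => hab (by rw [h])
      · have e1 : l = false := ha
        have e2 : (!s) = sb := hf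
        have e3 : s ≠ sb := by rw [← e2]; cases s <;> decide
        have := (adj_diff m t s sb l lb i ib e3 hb).1
        rw [e1] at this
        exact absurd this (by decide)
      · have e1 : l = false := hb
        have e2 : sa = (!s) := hf
        have e3 : s ≠ sa := by rw [e2]; cases s <;> decide
        have := (adj_diff m t s sa l la i ia e3 ha).1
        rw [e1] at this
        exact absurd this (by decide)
      · have e3 : sa = sb := hf
        subst e3
        rw [adj_same]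
        rintro ⟨rfl, rfl⟩
        exact hab rfl
  intro v a b c ha hb hc hab hac hbc
  obtain ⟨f, hf⟩ := key v
  by_cases h1 : f a = f b
  · exact Or.inl (hf a b ha hb hab h1)
  · by_cases h2 : f a = f c
    · exact Or.inr (Or.inl (hf a c ha hc hac h2))
    · refine Or.inr (Or.inr (hf b c hb hc hbc ?_))
      generalize f a = x at h1 h2
      generalize f b = y at h1 ⊢
      generalize f c = z at h2 ⊢
      clear hf ha hb hc hab hac hbc f key
      revert x y z
      decide

lemma connected (m t : ℕ) (ht : 1 ≤ t) : (LG m t).Connected := by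
  have hz : ∀ v : LV m t, (LG m t).Reachable v (Sum.inl ⟨0, ht⟩) := by
    have h1 : ∀ (s : Bool) (i : Fin (m + 2)),
        (LG m t).Reachable (Sum.inr (s, false, i)) (Sum.inl ⟨0, ht⟩) := fun s i =>
      SimpleGraph.Adj.reachable rfl
    rintro (a | ⟨s, l, i⟩)
    · by_cases h : a = ⟨0, ht⟩
      · rw [h]
      · exact SimpleGraph.Adj.reachable h
    · cases l
      · exact h1 s i
      · refine SimpleGraph.Reachable.trans (SimpleGraph.Adj.reachable ?_) (h1 s i)
        rw [adj_same]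
        rintro ⟨h, _⟩
        exact absurd h (by decide)
  have : Nonempty (LV m t) := ⟨Sum.inl ⟨0, ht⟩⟩
  exact ⟨fun u v => (hz u).trans (hz v).symm⟩

/-- a set which contains `m + 2` vertices `(s, l, i)` has more than `k` elements for `k < m + 2` -/
lemma many (m t k : ℕ) (hk : k < m + 2) (s l : Bool) (X : Set (LV m t))
    (hX : ∀ i, Sum.inr (s, l, i) ∈ X) : k < X.ncard := by
  have h1 : (Set.range fun i : Fin (m + 2) => (Sum.inr (s, l, i) : LV m t)) ⊆ X := by
    rintro _ ⟨i, rfl⟩
    exact hX i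
  have h2 := Set.ncard_le_ncard h1 (Set.toFinite _)
  rw [← Set.image_univ, Set.ncard_image_of_injective _ (fun i j h => by simpa using h),
    Set.ncard_univ, Nat.card_fin] at h2
  omega

lemma hit_side (m t k : ℕ) (hk : k < m + 2) (s : Bool) (S : Set (LV m t))
    (hS : PowerDominating (LG m t) k S) : ∃ x ∈ S, ∀ s' l i, x = Sum.inr (s', l, i) → s' = s := by
  obtain ⟨x, hx, h⟩ := fort_hit (F := {x : LV m t | ∃ i, x = Sum.inr (s, false, i)})
    ⟨Sum.inr (s, false, 0), 0, rfl⟩ (by
      rintro v hv ⟨w, hvw, i, rfl⟩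
      refine many m t k hk s false _ fun j => ⟨?_, j, rfl⟩
      rcases v with a | ⟨s', l', i'⟩
      · exact rfl
      · by_cases hs : s' = s
        · subst hs
          rw [SimpleGraph.mem_neighborSet, adj_same]
          rintro ⟨rfl, rfl⟩
          exact hv ⟨i', rfl⟩
        · exact absurd (adj_diff m t s' s l' false i' i hs hvw).2 (by decide)) hS
  refine ⟨x, hx, ?_⟩
  rintro s' l i rfl
  rcases h with ⟨j, hj⟩ | ⟨f, ⟨j, rfl⟩, hf⟩
  · simp only [Sum.inr.injEq, Prod.mk.injEq] at hj
    exact hj.1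
  · by_contra hs
    exact absurd (adj_diff m t s' s l false i j hs hf).2 (by decide)

lemma hit_top (m t k : ℕ) (hk : k < m + 2) (S : Set (LV m t))
    (hS : PowerDominating (LG m t) k S) : ∃ x ∈ S, ∀ a, x ≠ Sum.inl a := by
  obtain ⟨x, hx, h⟩ := fort_hit (F := {x : LV m t | ∃ s i, x = Sum.inr (s, true, i)})
    ⟨Sum.inr (true, true, 0), true, 0, rfl⟩ (by
      rintro v hv ⟨w, hvw, s, i, rfl⟩
      rcases v with a | ⟨s', l', i'⟩
      · exact absurd (show true = false from hvw) (by decide)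
      · have hl : l' = false := by
          cases l'
          · rfl
          · exact absurd ⟨s', i', rfl⟩ hv
        subst hl
        refine many m t k hk s' true _ fun j => ⟨?_, s', j, rfl⟩
        rw [SimpleGraph.mem_neighborSet, adj_same]
        rintro ⟨h, _⟩
        exact absurd h (by decide)) hS
  refine ⟨x, hx, ?_⟩
  rintro a rfl
  rcases h with ⟨s, j, hj⟩ | ⟨f, ⟨s, j, rfl⟩, hf⟩
  · exact absurd hj (by simp)
  · exact absurd (show true = false from hf) (by decide)

lemma two_le (m t k : ℕ) (hk : k < m + 2) (S : Set (LV m t))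
    (hS : PowerDominating (LG m t) k S) : 2 ≤ S.ncard := by
  by_contra hcon
  obtain ⟨x, hx, h1⟩ := hit_side m t k hk false S hS
  obtain ⟨y, hy, h2⟩ := hit_side m t k hk true S hS
  obtain ⟨z, hz, h3⟩ := hit_top m t k hk S hS
  have hle : S.ncard ≤ 1 := by omega
  have hsub := (Set.ncard_le_one (Set.toFinite S)).1 hle
  have e1 := hsub x hx z hz
  have e2 := hsub y hy z hz
  rw [e1] at h1
  rw [e2] at h2
  rcases z with a | ⟨s, l, i⟩
  · exact h3 a rfl
  · have := (h1 s l i rfl).symm.trans (h2 s l i rfl)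
    exact absurd this (by decide)

/-- **Lower bound.** -/
theorem lower (r k : ℕ) (hk0 : 0 < k) (hk : k < r / 2) : ∃ (V : Type) (_ : Finite V)
    (G : SimpleGraph V), G.Connected ∧ ClawFree G ∧ (∀ v, (G.neighborSet v).ncard = r) ∧
      Nat.card V < 2 * (r + 1) ∧ ∀ S : Set V, PowerDominating G k S → 2 ≤ S.ncard := by
  obtain ⟨m, hm⟩ : ∃ m, r / 2 = m + 2 := ⟨r / 2 - 2, by omega⟩
  obtain ⟨t, ht⟩ : ∃ t, t = r - 2 * (m + 2) + 1 := ⟨_, rfl⟩
  refine ⟨LV m t, inferInstance, LG m t, connected m t (by omega), clawFree m t, fun v => ?_, ?_,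
    fun S hS => two_le m t k (by omega) S hS⟩
  · rw [regular m t (by omega) (by omega)]
    omega
  · rw [Nat.card_eq_fintype_card, Fintype.card_sum, Fintype.card_prod, Fintype.card_prod,
      Fintype.card_bool, Fintype.card_fin, Fintype.card_fin]
    omega

end Pool.Agent.Q107.ClawPD
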