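import Pool.Agent.Q107.ClawPD.Defs

/-!
# The upper bound `γ_{P,k}(G) ≤ n / (r + 1)` for claw-free `r`-regular graphs, `r ≤ 2 k + 1`

An edge `uv` is strong if `v` has at most `k` neighbours outside `N[u]` (by regularity this is
symmetric in `u` and `v`). A vertex is complete if its closed neighbourhood is monitored;
completeness spreads along strong edges. Fix any order of the components of the graph of strong
edges and call a vertex untouched if it has no neighbour in an earlier component. It is enough to
put one vertex of each component with more than `k` untouched vertices into the set. For the order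
and the reverse order together this needs at most `2 n / (r + 1)` vertices.
-/

set_option autoImplicit false

namespace Pool.Agent.Q107.ClawPD

variable {V : Type*}

/-- the edge `uv` is strong -/
def Strong (G : SimpleGraph V) (k : ℕ) (u v : V) : Prop :=
  G.Adj u v ∧ (G.neighborSet v \ insert u (G.neighborSet u)).ncard ≤ k

/-- `|N(v) \ N[u]| + |N(v) ∩ N(u)| + 1 = r` -/
lemma far_count [Finite V] {G : SimpleGraph V} {r : ℕ}
    (hreg : ∀ v, (G.neighborSet v).ncard = r) {u v : V} (huv : G.Adj u v) :
    (G.neighborSet v \ insert u (G.neighborSet u)).ncard +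
      (G.neighborSet v ∩ G.neighborSet u).ncard + 1 = r := by
  have h1 := Set.ncard_inter_add_ncard_sdiff_eq_ncard (G.neighborSet v)
    (insert u (G.neighborSet u)) (Set.toFinite _)
  rw [hreg v] at h1
  have h2 : G.neighborSet v ∩ insert u (G.neighborSet u) =
      insert u (G.neighborSet v ∩ G.neighborSet u) := by
    ext x
    simp only [Set.mem_inter_iff, Set.mem_insert_iff, SimpleGraph.mem_neighborSet]
    constructor
    · rintro ⟨h, rfl | h'⟩
      · exact Or.inl rfl
      · exact Or.inr ⟨h, h'⟩
    · rintro (rfl | ⟨h, h'⟩)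
      · exact ⟨huv.symm, Or.inl rfl⟩
      · exact ⟨h, Or.inr h'⟩
  have h3 : u ∉ G.neighborSet v ∩ G.neighborSet u := by
    rintro ⟨_, h⟩
    exact G.loopless.irrefl u h
  rw [h2, Set.ncard_insert_of_notMem h3 (Set.toFinite _)] at h1
  omega

lemma far_symm [Finite V] {G : SimpleGraph V} {r : ℕ}
    (hreg : ∀ v, (G.neighborSet v).ncard = r) {u v : V} (huv : G.Adj u v) :
    (G.neighborSet v \ insert u (G.neighborSet u)).ncard =
      (G.neighborSet u \ insert v (G.neighborSet v)).ncard := by
  have h1 := far_count hreg huv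
  have h2 := far_count hreg huv.symm
  rw [Set.inter_comm] at h2
  omega

lemma strong_symm [Finite V] {G : SimpleGraph V} {r k : ℕ}
    (hreg : ∀ v, (G.neighborSet v).ncard = r) {u v : V} (h : Strong G k u v) :
    Strong G k v u :=
  ⟨h.1.symm, by rw [← far_symm hreg h.1]; exact h.2⟩

/-- an edge `vz` where `z` is a neighbour of `v` far from `u`, `uv` weak, is strong -/
lemma strong_of_weak [Finite V] {G : SimpleGraph V} {r k : ℕ} (hrk : r ≤ 2 * k + 1)
    (hreg : ∀ v, (G.neighborSet v).ncard = r) (hclaw : ClawFree G) {u v z : V}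
    (huv : G.Adj u v) (hw : k < (G.neighborSet v \ insert u (G.neighborSet u)).ncard)
    (hz : z ∈ G.neighborSet v \ insert u (G.neighborSet u)) : Strong G k v z := by
  refine ⟨hz.1, ?_⟩
  have h1 := far_count hreg (show G.Adj v z from hz.1)
  have h2 : (G.neighborSet v \ insert u (G.neighborSet u)) \ {z} ⊆
      G.neighborSet z ∩ G.neighborSet v := by
    rintro x ⟨hx, hxz⟩
    refine ⟨?_, hx.1⟩
    have hxz' : x ≠ z := hxz
    have hux : u ≠ x := by rintro rfl; exact hx.2 (Set.mem_insert _ _)
    have huz : u ≠ z := by rintro rfl; exact hz.2 (Set.mem_insert _ _)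
    have hux' : ¬ G.Adj u x := fun h => hx.2 (Set.mem_insert_of_mem _ h)
    have huz' : ¬ G.Adj u z := fun h => hz.2 (Set.mem_insert_of_mem _ h)
    rcases hclaw v u x z huv.symm hx.1 hz.1 hux huz hxz' with h | h | h
    · exact absurd h hux'
    · exact absurd h huz'
    · exact h.symm
  have h3 := Set.ncard_le_ncard h2 (Set.toFinite _)
  rw [Set.ncard_sdiff_singleton_of_mem hz] at h3
  omega

/-- `v` and all its neighbours are in `M` -/
def Complete (G : SimpleGraph V) (M : Set V) (v : V) : Prop := v ∈ M ∧ G.neighborSet v ⊆ M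

lemma complete_strong [Finite V] {G : SimpleGraph V} {k : ℕ} {M : Set V} (hM : Closed G k M)
    {u v : V} (hu : Complete G M u) (h : Strong G k u v) : Complete G M v := by
  have hv : v ∈ M := hu.2 h.1
  refine ⟨hv, hM v hv ?_⟩
  refine le_trans (Set.ncard_le_ncard ?_ (Set.toFinite _)) h.2
  rintro x ⟨hx, hxM⟩
  refine ⟨hx, ?_⟩
  rintro (rfl | h')
  · exact hxM hu.1
  · exact hxM (hu.2 h')

/-- a labelling of the components of the graph of strong edges by integers -/
structure Labels (G : SimpleGraph V) (k : ℕ) (c : V → ℤ) : Prop where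
  strong : ∀ u v, Strong G k u v → c u = c v
  conn : ∀ u v, c u = c v → Relation.ReflTransGen (Strong G k) u v

lemma complete_label [Finite V] {G : SimpleGraph V} {k : ℕ} {M : Set V} (hM : Closed G k M)
    {c : V → ℤ} (hc : Labels G k c) {u v : V} (hu : Complete G M u) (h : c u = c v) :
    Complete G M v := by
  have := hc.conn u v h
  clear h
  induction this with
  | refl => exact hu
  | tail _ h ih => exact complete_strong hM ih h

/-- the untouched vertices with label `d` -/
def untouched (G : SimpleGraph V) (c : V → ℤ) (d : ℤ) : Set V :=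
  {v | c v = d ∧ ∀ y, G.Adj v y → ¬ c y < d}

/-- the other class of untouched vertices, for the reverse order -/
lemma labels_neg {G : SimpleGraph V} {k : ℕ} {c : V → ℤ} (hc : Labels G k c) :
    Labels G k (fun v => - c v) :=
  ⟨fun u v h => by rw [hc.strong u v h], fun u v h => hc.conn u v (by simpa using h)⟩

/-- each class has more than `k` vertices -/
lemma class_large [Finite V] {G : SimpleGraph V} {r k : ℕ} (hrk : r ≤ 2 * k + 1) (hkr : k ≤ r)
    (hreg : ∀ v, (G.neighborSet v).ncard = r) (hclaw : ClawFree G) {c : V → ℤ}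
    (hc : Labels G k c) (x : V) : k < {v | c v = c x}.ncard := by
  by_cases h : ∀ y, G.Adj x y → c y = c x
  · have h1 : insert x (G.neighborSet x) ⊆ {v | c v = c x} := by
      rintro y (rfl | hy)
      · rfl
      · exact h y hy
    have h2 := Set.ncard_le_ncard h1 (Set.toFinite _)
    have hnm : x ∉ G.neighborSet x := fun h => G.loopless.irrefl x h
    rw [Set.ncard_insert_of_notMem hnm (Set.toFinite _), hreg x] at h2
    omega
  · push Not at h
    obtain ⟨y, hy, hyc⟩ := h
    have hw : k < (G.neighborSet x \ insert y (G.neighborSet y)).ncard := by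
      by_contra hcon
      push Not at hcon
      exact hyc (hc.strong y x ⟨hy.symm, hcon⟩)
    refine lt_of_lt_of_le hw (Set.ncard_le_ncard ?_ (Set.toFinite _))
    intro z hz
    exact (hc.strong x z (strong_of_weak hrk hreg hclaw hy.symm hw hz)).symm

/-- The main point: a set which meets all classes with more than `k` untouched vertices is power
dominating. -/
lemma dominating [Finite V] {G : SimpleGraph V} {r k : ℕ} (hrk : r ≤ 2 * k + 1) (hkr : k ≤ r)
    (hreg : ∀ v, (G.neighborSet v).ncard = r) (hclaw : ClawFree G) {c : V → ℤ}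
    (hc : Labels G k c) (S : Set V)
    (hS : ∀ x, k < (untouched G c (c x)).ncard → ∃ s ∈ S, c s = c x) :
    PowerDominating G k S := by
  refine powerDominating_of_closed fun M hSM hM => ?_
  have hSc : ∀ s ∈ S, Complete G M s := fun s hs =>
    ⟨hSM (Or.inl hs), fun y hy => hSM (Or.inr ⟨s, hs, hy⟩)⟩
  have key : ∀ x, Complete G M x := by
    by_contra hcon
    push Not at hcon
    obtain ⟨x, hx, hmin⟩ := Set.exists_min_image {x | ¬ Complete G M x} c (Set.toFinite _) hcon
    have hearlier : ∀ y, c y < c x → Complete G M y := by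
      intro y hy
      by_contra hcon
      exact absurd (hmin y hcon) (by omega)
    have hx' : ∀ v, c v = c x → ¬ Complete G M v := fun v hv h =>
      hx (complete_label hM hc h hv)
    have hle : (untouched G c (c x)).ncard ≤ k := by
      by_contra hcon
      push Not at hcon
      obtain ⟨s, hs, hsx⟩ := hS x hcon
      exact hx' s hsx (hSc s hs)
    have hlarge := class_large hrk hkr hreg hclaw hc x
    obtain ⟨v, hv, hvu⟩ : ∃ v, c v = c x ∧ v ∉ untouched G c (c x) := by
      by_contra hcon
      push Not at hcon
      have := Set.ncard_le_ncard (show {v | c v = c x} ⊆ untouched G c (c x) from hcon)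
        (Set.toFinite _)
      omega
    have : ∃ y, G.Adj v y ∧ c y < c x := by
      by_contra hcon
      push Not at hcon
      exact hvu ⟨hv, fun y hy => not_lt.2 (hcon y hy)⟩
    obtain ⟨y, hvy, hy⟩ := this
    have hyc := hearlier y hy
    have hvM : v ∈ M := hyc.2 hvy.symm
    have hw : k < (G.neighborSet v \ insert y (G.neighborSet y)).ncard := by
      by_contra hcon
      push Not at hcon
      have := hc.strong y v ⟨hvy.symm, hcon⟩
      omega
    refine hx' v hv ⟨hvM, hM v hvM (le_trans (Set.ncard_le_ncard ?_ (Set.toFinite _)) hle)⟩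
    rintro z ⟨hz, hzM⟩
    have hzQ : z ∈ G.neighborSet v \ insert y (G.neighborSet y) := by
      refine ⟨hz, ?_⟩
      rintro (rfl | h)
      · exact hzM hyc.1
      · exact hzM (hyc.2 h)
    have hzc : c v = c z := hc.strong v z (strong_of_weak hrk hreg hclaw hvy.symm hw hzQ)
    refine ⟨by rw [← hzc, hv], fun y' hy' hlt => ?_⟩
    exact hzM ((hearlier y' hlt).2 hy'.symm)
  exact Set.eq_univ_of_forall fun x => (key x).1

/-- the two classes of untouched vertices are disjoint if every vertex has a neighbour outside -/
lemma two_counts [Finite V] {G : SimpleGraph V} {r k : ℕ} (hrk : r ≤ 2 * k + 1)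
    (hreg : ∀ v, (G.neighborSet v).ncard = r) {c : V → ℤ} (d : ℤ) :
    ((if k < (untouched G c d).ncard then 1 else 0) +
      (if k < (untouched G (fun v => - c v) (-d)).ncard then 1 else 0)) * (r + 1) ≤
      2 * {v | c v = d}.ncard := by
  have hsub1 : untouched G c d ⊆ {v | c v = d} := fun v hv => hv.1
  have hsub2 : untouched G (fun v => - c v) (-d) ⊆ {v | c v = d} := by
    intro v hv
    have := hv.1
    simpa using this
  have h1 := Set.ncard_le_ncard hsub1 (Set.toFinite _)
  have h2 := Set.ncard_le_ncard hsub2 (Set.toFinite _)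
  by_cases h : ∃ x, c x = d ∧ ∀ y, G.Adj x y → c y = d
  · obtain ⟨x, hx, hy⟩ := h
    have h3 : insert x (G.neighborSet x) ⊆ {v | c v = d} := by
      rintro y (rfl | hy')
      · exact hx
      · exact hy y hy'
    have h4 := Set.ncard_le_ncard h3 (Set.toFinite _)
    have hnm : x ∉ G.neighborSet x := fun h => G.loopless.irrefl x h
    rw [Set.ncard_insert_of_notMem hnm (Set.toFinite _), hreg x] at h4
    split_ifs <;> omega
  · push Not at h
    have hdisj : Disjoint (untouched G c d) (untouched G (fun v => - c v) (-d)) := by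
      rw [Set.disjoint_left]
      rintro v ⟨hv1, hv2⟩ ⟨_, hv4⟩
      obtain ⟨y, hy, hyd⟩ := h v hv1
      have e1 := hv2 y hy
      have e2 := hv4 y hy
      simp only [neg_lt_neg_iff, not_lt] at e1 e2
      exact hyd (le_antisymm e2 e1)
    have h3 := Set.ncard_union_eq hdisj (Set.toFinite _) (Set.toFinite _)
    have h4 := Set.ncard_le_ncard (Set.union_subset hsub1 hsub2) (Set.toFinite _)
    rw [h3] at h4
    split_ifs <;> nlinarith

/-- there is a labelling of the components of the graph of strong edges -/
lemma exists_labels [Finite V] {G : SimpleGraph V} {r : ℕ} (k : ℕ)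
    (hreg : ∀ v, (G.neighborSet v).ncard = r) : ∃ c : V → ℤ, Labels G k c := by
  classical
  have hsymm : ∀ u v, Relation.ReflTransGen (Strong G k) u v →
      Relation.ReflTransGen (Strong G k) v u := by
    intro u v h
    induction h with
    | refl => exact Relation.ReflTransGen.refl
    | tail _ h ih => exact Relation.ReflTransGen.head (strong_symm hreg h) ih
  let s : Setoid V := ⟨Relation.ReflTransGen (Strong G k),
    ⟨fun _ => Relation.ReflTransGen.refl, fun h => hsymm _ _ h, fun h h' => h.trans h'⟩⟩
  obtain ⟨f, hf⟩ : ∃ f : Quotient s → ℤ, Function.Injective f := by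
    obtain ⟨n, ⟨e⟩⟩ := Finite.exists_equiv_fin (Quotient s)
    refine ⟨fun q => ((e q : ℕ) : ℤ), fun a b h => e.injective (Fin.ext ?_)⟩
    have h' : ((e a : ℕ) : ℤ) = ((e b : ℕ) : ℤ) := h
    exact_mod_cast h'
  refine ⟨fun v => f (Quotient.mk s v), ?_, ?_⟩
  · intro u v h
    have : Quotient.mk s u = Quotient.mk s v := Quotient.sound (Relation.ReflTransGen.single h)
    simp only [this]
  · intro u v h
    exact Quotient.exact (hf h)

/-- **Upper bound.** -/
theorem upper [Finite V] [Nonempty V] {G : SimpleGraph V} {r k : ℕ} (hrk : r ≤ 2 * k + 1)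
    (hkr : k ≤ r) (hreg : ∀ v, (G.neighborSet v).ncard = r) (hclaw : ClawFree G) :
    ∃ S : Set V, PowerDominating G k S ∧ S.ncard * (r + 1) ≤ Nat.card V := by
  classical
  have := Fintype.ofFinite V
  obtain ⟨c, hc⟩ := exists_labels k hreg
  have hc' := labels_neg hc
  -- representatives
  set C : Finset ℤ := Finset.univ.image c with hC
  have hCm : ∀ x, c x ∈ C := fun x => Finset.mem_image_of_mem c (Finset.mem_univ x)
  have hrep : ∀ d : ℤ, ∃ v : V, d ∈ C → c v = d := by
    intro d
    by_cases hd : d ∈ C
    · obtain ⟨v, _, hv⟩ := Finset.mem_image.1 hd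
      exact ⟨v, fun _ => hv⟩
    · exact ⟨Classical.arbitrary V, fun h => absurd h hd⟩
  choose rep hrep using hrep
  set S₁ : Finset V := (C.filter fun d => k < (untouched G c d).ncard).image rep with hS₁
  set S₂ : Finset V :=
    (C.filter fun d => k < (untouched G (fun v => - c v) (-d)).ncard).image rep with hS₂
  have hd₁ : PowerDominating G k (S₁ : Set V) := by
    refine dominating hrk hkr hreg hclaw hc _ fun x hx => ⟨rep (c x), ?_, hrep _ (hCm x)⟩
    simp only [hS₁, Finset.coe_image, Finset.coe_filter]
    exact ⟨c x, ⟨hCm x, hx⟩, rfl⟩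
  have hd₂ : PowerDominating G k (S₂ : Set V) := by
    refine dominating hrk hkr hreg hclaw hc' _ fun x hx => ⟨rep (c x), ?_, ?_⟩
    · simp only [hS₂, Finset.coe_image, Finset.coe_filter]
      exact ⟨c x, ⟨hCm x, hx⟩, rfl⟩
    · simp only [hrep _ (hCm x)]
  have hcard : (S₁.card + S₂.card) * (r + 1) ≤ 2 * Fintype.card V := by
    have h1 : S₁.card ≤ ∑ d ∈ C, if k < (untouched G c d).ncard then 1 else 0 := by
      rw [← Finset.card_filter]
      exact Finset.card_image_le
    have h2 : S₂.card ≤ ∑ d ∈ C,
        if k < (untouched G (fun v => - c v) (-d)).ncard then 1 else 0 := by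
      rw [← Finset.card_filter]
      exact Finset.card_image_le
    have h3 : Fintype.card V = ∑ d ∈ C, {v | c v = d}.ncard := by
      rw [← Finset.card_univ, Finset.card_eq_sum_card_image c]
      refine Finset.sum_congr rfl fun d _ => ?_
      rw [← Set.ncard_coe_finset]
      congr 1
      ext v
      simp
    calc (S₁.card + S₂.card) * (r + 1)
        ≤ (∑ d ∈ C, ((if k < (untouched G c d).ncard then 1 else 0) +
          (if k < (untouched G (fun v => - c v) (-d)).ncard then 1 else 0))) * (r + 1) := by
          rw [Finset.sum_add_distrib]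
          exact Nat.mul_le_mul_right _ (Nat.add_le_add h1 h2)
      _ = ∑ d ∈ C, ((if k < (untouched G c d).ncard then 1 else 0) +
          (if k < (untouched G (fun v => - c v) (-d)).ncard then 1 else 0)) * (r + 1) := by
          rw [Finset.sum_mul]
      _ ≤ ∑ d ∈ C, 2 * {v | c v = d}.ncard :=
          Finset.sum_le_sum fun d _ => two_counts hrk hreg d
      _ = 2 * Fintype.card V := by rw [h3, Finset.mul_sum]
  rw [Nat.card_eq_fintype_card]
  rcases le_total S₁.card S₂.card with h | h
  · refine ⟨S₁, hd₁, ?_⟩
    rw [Set.ncard_coe_finset]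
    nlinarith
  · refine ⟨S₂, hd₂, ?_⟩
    rw [Set.ncard_coe_finset]
    nlinarith

end Pool.Agent.Q107.ClawPD
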